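import Pool.Agent.FKP.Assembly

/-!
# Random-cluster model (MP_552f07_pr): comparison of different cluster weights

`Ex` is the random-cluster expectation of project FKT. The two comparison inequalities of Fortuin:
the measure with parameters `p, q` dominates the measure with parameters `p, n` if `q ≤ n`, and it
dominates the measure with parameters `p0, m`, `p0 / (1 - p0) = (m / q) p / (1 - p)`, if `m ≤ q`.
-/

set_option autoImplicit false

namespace Pool.Agent.FKR

open Pool.Agent.FKT Pool.Agent.FKP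

section

variable {V E : Type} [DecidableEq E] (s t : E → V) (R : V → V → Prop) (U : Finset V)
  (G : Finset E)

/-- Comparison of two measures whose ratio is increasing. -/
theorem cmp_of {p q p' q' c : ℝ} (hp : 0 < p) (hp1 : p < 1) (hq : 1 ≤ q) (hc : 0 < c)
    (hG : ∀ e ∈ G, s e ∈ U ∧ t e ∈ U) (h : Finset E → ℝ) (h0 : ∀ ω, 0 < h ω)
    (hm : ∀ a b : Finset E, a ⊆ b → h a ≤ h b)
    (hw : ∀ ω, ω ⊆ G → wt s t R U G p' q' ω = c * (wt s t R U G p q ω * h ω))
    (f : Finset E → ℝ) (hf : ∀ a b : Finset E, a ⊆ b → f a ≤ f b) :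
    Ex s t R U G p q f ≤ Ex s t R U G p' q' f := by
  have hq0 : 0 < q := by linarith
  have hZ := Z_pos (s := s) (t := t) (R := R) (U := U) (G := G) hp hp1 hq0
  have k1 := (f_FKG V E s t R U G p q hp hp1 hq hG).1 h f hm hf
  have k2 : 0 < Ex s t R U G p q h :=
    Ex_pos hp hp1 hq0 (fun ω _ => (h0 ω).le) (Finset.empty_subset G) (h0 ∅)
  have k3 : Ex s t R U G p' q' f =
      Ex s t R U G p q (fun ω => h ω * f ω) / Ex s t R U G p q h := by
    have e1 : ∑ ω ∈ G.powerset, wt s t R U G p' q' ω * f ω =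
        c * ∑ ω ∈ G.powerset, wt s t R U G p q ω * (h ω * f ω) := by
      rw [Finset.mul_sum]
      refine Finset.sum_congr rfl fun ω hω => ?_
      rw [hw ω (Finset.mem_powerset.1 hω)]
      ring
    have e2 : ∑ ω ∈ G.powerset, wt s t R U G p' q' ω =
        c * ∑ ω ∈ G.powerset, wt s t R U G p q ω * h ω := by
      rw [Finset.mul_sum]
      exact Finset.sum_congr rfl fun ω hω => hw ω (Finset.mem_powerset.1 hω)
    have k2' := k2
    unfold Ex at k2' ⊢
    rw [e1, e2, mul_div_mul_left _ _ hc.ne', div_div_div_cancel_right₀ hZ.ne']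
  rw [k3, le_div_iff₀ k2, mul_comm]
  exact k1

omit [DecidableEq E] in
/-- The number of clusters decreases if edges are added. -/
theorem ncl_anti {O O' : Set E} (h : O ⊆ O') : ncl s t R U O' ≤ ncl s t R U O := by
  classical
  unfold ncl
  have hfin : (clus s t R O '' (U : Set V)).Finite := U.finite_toSet.image _
  have hsub : clus s t R O' '' (U : Set V) ⊆
      (fun A : Set V => {w | ∃ a ∈ A, FKT.Con s t R O' a w}) '' (clus s t R O '' (U : Set V)) := by
    rintro _ ⟨v, hv, rfl⟩
    refine ⟨clus s t R O v, ⟨v, hv, rfl⟩, ?_⟩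
    ext w
    constructor
    · rintro ⟨a, ha, haw⟩
      exact Con_trans (Con_mono (fun _ _ hab => hab) h ha) haw
    · intro hw
      exact ⟨v, Con_refl O v, hw⟩
  exact (Set.ncard_le_ncard hsub (hfin.image _)).trans (Set.ncard_image_le hfin)

/-- Adding edges decreases the number of clusters at most by the number of these edges. -/
theorem ncl_add (a D : Finset E) (hD : ∀ e ∈ D, s e ∈ U ∧ t e ∈ U) :
    ncl s t R U (a : Set E) ≤ ncl s t R U ((a ∪ D : Finset E) : Set E) + D.card := by
  induction D using Finset.induction_on with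
  | empty => simp
  | insert e D he ih =>
    have ih' := ih fun f hf => hD f (Finset.mem_insert_of_mem hf)
    obtain ⟨h1, h2⟩ := hD e (Finset.mem_insert_self e D)
    have k := (FKT.p_ADD V E s t R U).1 ((a ∪ D : Finset E) : Set E) e h1 h2
    have e1 : ((a ∪ insert e D : Finset E) : Set E) = insert e ((a ∪ D : Finset E) : Set E) := by
      rw [Finset.union_insert, Finset.coe_insert]
    rw [e1, Finset.card_insert_of_notMem he]
    by_cases hcon : FKT.Con s t R ((a ∪ D : Finset E) : Set E) (s e) (t e)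
    · rw [k.1 hcon]
      omega
    · have := k.2 hcon
      omega

/-- The sum of the numbers of open edges and of clusters increases if edges are added. -/
theorem card_ncl_mono {a b : Finset E} (h : a ⊆ b) (hb : ∀ e ∈ b, s e ∈ U ∧ t e ∈ U) :
    a.card + ncl s t R U (a : Set E) ≤ b.card + ncl s t R U (b : Set E) := by
  have k := ncl_add s t R U a (b \ a) fun e he => hb e (Finset.mem_sdiff.1 he).1
  have e1 : a ∪ b \ a = b := Finset.union_sdiff_of_subset h
  have e2 := Finset.card_sdiff_add_card_eq_card h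
  rw [e1] at k
  omega

/-- First comparison inequality: the cluster weight decreases. -/
theorem cmp_up {p q n : ℝ} (hp : 0 < p) (hp1 : p < 1) (hq : 1 ≤ q) (hn : q ≤ n)
    (hG : ∀ e ∈ G, s e ∈ U ∧ t e ∈ U)
    (f : Finset E → ℝ) (hf : ∀ a b : Finset E, a ⊆ b → f a ≤ f b) :
    Ex s t R U G p n f ≤ Ex s t R U G p q f := by
  have hq0 : 0 < q := by linarith
  have hn0 : 0 < n := by linarith
  have hr : 0 < q / n := div_pos hq0 hn0
  have hr1 : q / n ≤ 1 := (div_le_one hn0).2 hn
  refine cmp_of s t R U G hp hp1 (hq.trans hn) one_pos hG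
    (fun ω => (q / n) ^ ncl s t R U (ω : Set E)) (fun ω => pow_pos hr _) ?_ ?_ f hf
  · intro a b hab
    exact pow_le_pow_of_le_one hr.le hr1 (ncl_anti s t R U (Finset.coe_subset.2 hab))
  · intro ω _
    unfold wt
    rw [div_pow]
    have : n ^ ncl s t R U (ω : Set E) ≠ 0 := (pow_pos hn0 _).ne'
    field_simp

/-- Second comparison inequality: the cluster weight increases. -/
theorem cmp_dn {p q m : ℝ} (hp : 0 < p) (hp1 : p < 1) (hm : 1 ≤ m) (hq : m ≤ q)
    (hG : ∀ e ∈ G, s e ∈ U ∧ t e ∈ U)
    (f : Finset E → ℝ) (hf : ∀ a b : Finset E, a ⊆ b → f a ≤ f b) :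
    Ex s t R U G (m * p / (m * p + q * (1 - p))) m f ≤ Ex s t R U G p q f := by
  have hq0 : 0 < q := by linarith
  have hm0 : 0 < m := by linarith
  have h1p : 0 < 1 - p := by linarith
  have hD : 0 < m * p + q * (1 - p) := by positivity
  set p0 := m * p / (m * p + q * (1 - p)) with hp0
  have e0 : 1 - p0 = q * (1 - p) / (m * p + q * (1 - p)) := by
    rw [hp0]
    field_simp
    ring
  have h0 : 0 < p0 := by positivity
  have h01 : 0 < 1 - p0 := by rw [e0]; positivity
  have hr : 1 ≤ q / m := (one_le_div hm0).2 hq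
  refine cmp_of s t R U G h0 (by linarith) hm
    (c := ((1 - p) / (1 - p0)) ^ G.card) (pow_pos (div_pos h1p h01) _) hG
    (fun ω => (q / m) ^ ((ω ∩ G).card + ncl s t R U ((ω ∩ G : Finset E) : Set E)))
    (fun ω => pow_pos (by linarith) _) ?_ ?_ f hf
  · intro a b hab
    refine pow_le_pow_right₀ hr ?_
    exact card_ncl_mono s t R U (Finset.inter_subset_inter_right hab)
      fun e he => hG e (Finset.mem_inter.1 he).2
  · intro ω hω
    have e1 : ω ∩ G = ω := Finset.inter_eq_left.2 hω
    have hle := Finset.card_le_card hω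
    obtain ⟨j, hj⟩ : ∃ j, G.card = ω.card + j := ⟨G.card - ω.card, by omega⟩
    have e2 : G.card - ω.card = j := by omega
    have e3 : p = (1 - p) / (1 - p0) * p0 * (q / m) := by
      rw [e0, hp0]
      field_simp
    have e4 : 1 - p = (1 - p) / (1 - p0) * (1 - p0) := by
      field_simp
    simp only [e1]
    unfold wt bw
    rw [e2, hj]
    set k := ncl s t R U (ω : Set E)
    set r := (1 - p) / (1 - p0)
    calc p ^ ω.card * (1 - p) ^ j * q ^ k
        = (r * p0 * (q / m)) ^ ω.card * (r * (1 - p0)) ^ j * q ^ k := by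
          rw [← e3, ← e4]
      _ = r ^ (ω.card + j) * (p0 ^ ω.card * (1 - p0) ^ j * ((q / m) ^ ω.card * q ^ k)) := by
          rw [mul_pow, mul_pow, mul_pow, pow_add]
          ring
      _ = r ^ (ω.card + j) *
          (p0 ^ ω.card * (1 - p0) ^ j * m ^ k * (q / m) ^ (ω.card + k)) := by
          have : q ^ k = m ^ k * (q / m) ^ k := by
            rw [← mul_pow, mul_div_cancel₀ _ hm0.ne']
          rw [this, pow_add (q / m)]
          ring

end

/-! ## Slabs -/

section lattice

variable {d : ℕ}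

theorem Cf_mono {x y : Vx d} {a b : Finset (Ed d)} (h : a ⊆ b) :
    FKP.ind (Cf a x y) ≤ FKP.ind (Cf b x y) :=
  ind_mono fun hx => Con_mono (fun _ _ hab => hab) (Finset.coe_subset.2 h) hx

theorem slab_up {p q n α : ℝ} {L : ℕ} (hp : 0 < p) (hp1 : p < 1) (hq : 1 ≤ q) (hn : q ≤ n)
    (h : Slab d p n L α) : Slab d p q L α := by
  refine ⟨h.1, fun i c N x hx y hy => (h.2 i c N x hx y hy).trans ?_⟩
  unfold tp fr fw
  exact cmp_up Prod.fst tgt (no (Vx d)) _ _ hp hp1 hq hn (fun e he => mem_es.1 he) _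
    fun a b hab => Cf_mono hab

theorem slab_dn {p q m α : ℝ} {L : ℕ} (hp : 0 < p) (hp1 : p < 1) (hm : 1 ≤ m) (hq : m ≤ q)
    (h : Slab d (m * p / (m * p + q * (1 - p))) m L α) : Slab d p q L α := by
  refine ⟨h.1, fun i c N x hx y hy => (h.2 i c N x hx y hy).trans ?_⟩
  unfold tp fr fw
  exact cmp_dn Prod.fst tgt (no (Vx d)) _ _ hp hp1 hm hq (fun e he => mem_es.1 he) _
    fun a b hab => Cf_mono hab

end lattice

end Pool.Agent.FKR
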