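import Pool.Agent.FKP.Final
import Pool.Agent.FKR.Compare

/-!
# Random-cluster model (MP_552f07_pr): tails of the finite clusters for real cluster weights

Slab percolation for an integer cluster weight is carried over to real cluster weights by the
comparison inequalities.
-/

set_option autoImplicit false

namespace Pool.Agent.FKR

open MeasureTheory Pool.Agent.FKT Pool.Agent.FKP

/-- Both tails at `p = 1`. -/
theorem tails_one (d : ℕ) (q : ℝ) (hd : 2 ≤ d) (hq : 1 ≤ q) : Tails d 1 q := by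
  intro μ hμ
  refine ⟨1, 1, one_pos, one_pos, fun n _ => ?_⟩
  have h0 := p_ONE d hd q hq μ hμ
  have h1 : μ.real (Rad d n) = 0 := by
    have : μ (Rad d n) = 0 := measure_mono_null (fun ω hω => hω.1) h0
    simp [Measure.real, this]
  have h2 : μ.real (Vol d n) = 0 := by
    have : μ (Vol d n) = 0 := measure_mono_null (fun ω hω => hω.1) h0
    simp [Measure.real, this]
  rw [h1, h2]
  exact ⟨(Real.exp_pos _).le, (Real.exp_pos _).le⟩

/-- The condition on the parameters, for an integer `n`. -/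
def Cnd (d n : ℕ) (q p : ℝ) : Prop :=
  (q ≤ n ∧ pc d n < p) ∨ (n ≤ q ∧ pc d n < n * p / (n * p + q * (1 - p)))

/-- The condition forces `p > 0`. -/
theorem Cnd.pos {d n : ℕ} {q p : ℝ} (hn : 2 ≤ n) (hq : 1 ≤ q) (h : Cnd d n q p) : 0 < p := by
  have hn0 : (0 : ℝ) < n := by exact_mod_cast (by omega : 0 < n)
  rcases h with ⟨_, h⟩ | ⟨h1, h⟩
  · exact (pc_nonneg d n).trans_lt h
  · by_contra hcon
    have hp : p ≤ 0 := not_lt.1 hcon
    have e : n * p + q * (1 - p) = q + (n - q) * p := by ring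
    have h2 : 0 ≤ (n - q) * p := mul_nonneg_of_nonpos_of_nonpos (by linarith) hp
    have h3 : n * p / (n * p + q * (1 - p)) ≤ 0 :=
      div_nonpos_of_nonpos_of_nonneg (mul_nonpos_of_nonneg_of_nonpos hn0.le hp)
        (by rw [e]; linarith)
    linarith [pc_nonneg d n]

/-- Slab percolation. -/
theorem slab_real (d n : ℕ) (q p : ℝ) (hd : 3 ≤ d) (hn : 2 ≤ n) (hq : 1 ≤ q) (hp1 : p < 1)
    (h : Cnd d n q p) : ∃ (L : ℕ) (α : ℝ), Slab d p q L α := by
  have hp := h.pos hn hq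
  have hn1 : (1 : ℝ) ≤ n := by exact_mod_cast (by omega : 1 ≤ n)
  rcases h with ⟨h1, h2⟩ | ⟨h1, h2⟩
  · obtain ⟨L, α, hS⟩ := (g_TAL d n p hd hn1 (g_QLN n hn) h2 hp1.le).2 hp1
    exact ⟨L, α, slab_up hp hp1 hq h1 hS⟩
  · have hD : 0 < n * p + q * (1 - p) := by
      have : 0 < 1 - p := by linarith
      positivity
    have h3 : n * p / (n * p + q * (1 - p)) < 1 := by
      rw [div_lt_one hD]
      have : 0 < q * (1 - p) := mul_pos (by linarith) (by linarith)
      linarith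
    obtain ⟨L, α, hS⟩ := (g_TAL d n _ hd hn1 (g_QLN n hn) h2 h3.le).2 h3
    exact ⟨L, α, slab_dn hp hp1 hn1 h1 hS⟩

/-- Both tail bounds. -/
theorem tails_real (d n : ℕ) (q p : ℝ) (hd : 3 ≤ d) (hn : 2 ≤ n) (hq : 1 ≤ q) (hp1 : p ≤ 1)
    (h : Cnd d n q p) :
    ∃ μ : Measure (Ed d → Bool), IsWired d p q μ ∧
      (∀ ν : Measure (Ed d → Bool), IsWired d p q ν → ν = μ) ∧
      ∃ σ γ : ℝ, 0 < σ ∧ 0 < γ ∧ ∀ m : ℕ, 1 ≤ m →
        μ.real {ω | (C0 ω).Finite ∧ ∃ v ∈ C0 ω, ∃ i, (m : ℤ) ≤ |v i|} ≤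
          Real.exp (-(m * σ)) ∧
        μ.real {ω | (C0 ω).Finite ∧ m ≤ (C0 ω).ncard} ≤
          Real.exp (-(γ * (m : ℝ) ^ (((d : ℝ) - 1) / d))) := by
  have hp := h.pos hn hq
  obtain ⟨μ, hμ⟩ := wired_exists d p q (by omega) hp hp1 hq
  refine ⟨μ, hμ, fun ν hν => wired_unique hμ hν, ?_⟩
  rcases eq_or_lt_of_le hp1 with rfl | hlt
  · exact tails_one d q (by omega) hq μ hμ
  · obtain ⟨L, α, hS⟩ := slab_real d n q p hd hn hq hlt h
    exact g_REN d (by omega) p q hp hlt hq L α hS μ hμ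

end Pool.Agent.FKR
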